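import Mathlib

/-!
# Counting letters and squares in words given by functions

A word of length `n` is the restriction of a function `f : ℕ → ℕ` to `[0, n)`.
-/

set_option autoImplicit false

namespace Pool.Agent.PSQ

open Finset

/-- the number of positions `i` with `a ≤ i < b` and `f i = c` -/
def cnt (f : ℕ → ℕ) (c a b : ℕ) : ℕ := ∑ i ∈ Finset.Ico a b, if f i = c then 1 else 0

theorem cnt_add (f : ℕ → ℕ) (c : ℕ) {a m b : ℕ} (h1 : a ≤ m) (h2 : m ≤ b) :
    cnt f c a b = cnt f c a m + cnt f c m b :=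
  (Finset.sum_Ico_consecutive _ h1 h2).symm

theorem cnt_one (f : ℕ → ℕ) (c a : ℕ) : cnt f c a (a + 1) = if f a = c then 1 else 0 := by
  unfold cnt
  rw [Nat.Ico_succ_singleton, Finset.sum_singleton]

theorem cnt_self (f : ℕ → ℕ) (c a : ℕ) : cnt f c a a = 0 := by
  simp [cnt]

theorem cnt_mono (f : ℕ → ℕ) (c : ℕ) {a b a' b' : ℕ} (h1 : a' ≤ a) (h2 : b ≤ b') :
    cnt f c a b ≤ cnt f c a' b' := by
  unfold cnt
  exact Finset.sum_le_sum_of_subset (Finset.Ico_subset_Ico h1 h2)

theorem cnt_pos (f : ℕ → ℕ) (c : ℕ) {a b i : ℕ} (h1 : a ≤ i) (h2 : i < b) (h : f i = c) :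
    1 ≤ cnt f c a b := by
  have h3 : cnt f c i (i + 1) ≤ cnt f c a b := cnt_mono f c h1 h2
  rw [cnt_one, if_pos h] at h3
  exact h3

theorem cnt_zero (f : ℕ → ℕ) (c : ℕ) {a b : ℕ} (h : ∀ i, a ≤ i → i < b → f i ≠ c) :
    cnt f c a b = 0 := by
  unfold cnt
  refine Finset.sum_eq_zero fun i hi => ?_
  rw [Finset.mem_Ico] at hi
  rw [if_neg (h i hi.1 hi.2)]

theorem ne_of_cnt_zero (f : ℕ → ℕ) (c : ℕ) {a b : ℕ} (h : cnt f c a b = 0) :
    ∀ i, a ≤ i → i < b → f i ≠ c := by
  intro i h1 h2 h3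
  have := cnt_pos f c h1 h2 h3
  omega

theorem cnt_shift (f : ℕ → ℕ) (c : ℕ) {a b L : ℕ}
    (h : ∀ t, a ≤ t → t < b → f (t + L) = f t) :
    cnt f c (a + L) (b + L) = cnt f c a b := by
  unfold cnt
  rw [← Finset.sum_Ico_add']
  refine Finset.sum_congr rfl fun i hi => ?_
  rw [Finset.mem_Ico] at hi
  rw [h i hi.1 hi.2]

/-- the first occurrence -/
theorem first_occ (f : ℕ → ℕ) (c : ℕ) {a b : ℕ} (h : 1 ≤ cnt f c a b) :
    ∃ p, a ≤ p ∧ p < b ∧ f p = c ∧ (∀ i, a ≤ i → i < p → f i ≠ c) ∧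
      cnt f c a b = 1 + cnt f c (p + 1) b := by
  have hex : ∃ p, a ≤ p ∧ p < b ∧ f p = c := by
    by_contra hcon
    have : cnt f c a b = 0 := cnt_zero f c fun i h1 h2 h3 => hcon ⟨i, h1, h2, h3⟩
    omega
  classical
  refine ⟨Nat.find hex, (Nat.find_spec hex).1, (Nat.find_spec hex).2.1,
    (Nat.find_spec hex).2.2, ?_, ?_⟩
  · intro i h1 h2 h3
    exact Nat.find_min hex h2 ⟨h1, lt_trans h2 (Nat.find_spec hex).2.1, h3⟩
  · have h1 := (Nat.find_spec hex).1
    have h2 := (Nat.find_spec hex).2.1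
    have h3 := (Nat.find_spec hex).2.2
    rw [cnt_add f c h1 (le_of_lt h2), cnt_add f c (by omega : Nat.find hex ≤ Nat.find hex + 1) h2, cnt_one,
      if_pos h3]
    have h4 : cnt f c a (Nat.find hex) = 0 := by
      refine cnt_zero f c fun i h5 h6 h7 => ?_
      exact Nat.find_min hex h6 ⟨h5, lt_trans h6 h2, h7⟩
    omega

/-- going back by one period -/
theorem back {f : ℕ → ℕ} {s L i : ℕ} (h : ∀ t, s ≤ t → t < s + L → f (t + L) = f t)
    (h1 : s + L ≤ i) (h2 : i < s + 2 * L) :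
    f (i - L) = f i ∧ s ≤ i - L ∧ i - L < s + L := by
  have h3 := h (i - L) (by omega) (by omega)
  have e : i - L + L = i := by omega
  rw [e] at h3
  exact ⟨h3.symm, by omega, by omega⟩

/-- the position `i` is covered by the right half of a square of `f` inside `[lo, hi)` -/
def Cov (f : ℕ → ℕ) (lo hi i : ℕ) : Prop :=
  ∃ s L, lo ≤ s ∧ s + 2 * L ≤ hi ∧ s + L ≤ i ∧ i < s + 2 * L ∧
    ∀ t, s ≤ t → t < s + L → f (t + L) = f t

/-- **Lock lemma.** A segment `[lo, hi)` which starts with `R Q`, contains exactly three `R` and two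
`Q` and is closed under squares is of the form `R B R B R`. -/
theorem lock (f : ℕ → ℕ) (R Q lo hi c0 : ℕ) (hRQ : R ≠ Q) (h1 : f lo = R) (h2 : f (lo + 1) = Q)
    (h3 : lo + 1 < hi) (hR : cnt f R lo hi = 3) (hQ : cnt f Q lo hi = 2)
    (hc : ∀ i, lo ≤ i → i < hi → i < c0 → (f i = R → i = lo) ∧ (f i = Q → i = lo + 1))
    (hcov : ∀ i, c0 ≤ i → lo ≤ i → i < hi → Cov f lo hi i) :
    ∃ L, 2 ≤ L ∧ hi = lo + 2 * L + 1 ∧
      (∀ i, lo ≤ i → i < hi → f i = R → i = lo ∨ i = lo + L ∨ i = lo + 2 * L) ∧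
      f (lo + L) = R ∧ f (lo + 2 * L) = R ∧
      (∀ i, lo ≤ i → i < hi → f i = Q → i = lo + 1 ∨ i = lo + L + 1) ∧
      (∀ t, lo ≤ t → t < lo + L → f (t + L) = f t) ∧ c0 ≤ lo + L := by
  -- the three positions of `R`
  have hRa : cnt f R (lo + 1) hi = 2 := by
    have := cnt_add f R (by omega : lo ≤ lo + 1) (by omega : lo + 1 ≤ hi)
    rw [cnt_one, if_pos h1] at this
    omega
  obtain ⟨r2, hr2a, hr2b, hr2, hr2min, hr2c⟩ := first_occ f R (by omega : 1 ≤ cnt f R (lo + 1) hi)
  obtain ⟨r3, hr3a, hr3b, hr3, hr3min, hr3c⟩ := first_occ f R (by omega : 1 ≤ cnt f R (r2 + 1) hi)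
  have hr4 := ne_of_cnt_zero f R (by omega : cnt f R (r3 + 1) hi = 0)
  have hpos : ∀ i, lo ≤ i → i < hi → f i = R → i = lo ∨ i = r2 ∨ i = r3 := by
    intro i ha hb hf
    by_contra hcon
    push Not at hcon
    obtain ⟨c1, c2, c3⟩ := hcon
    rcases lt_or_gt_of_ne c2 with h | h
    · exact hr2min i (by omega) h hf
    · rcases lt_or_gt_of_ne c3 with h' | h'
      · exact hr3min i (by omega) h' hf
      · exact hr4 i (by omega) hb hf
  -- the second position of `Q`
  have hr2c0 : c0 ≤ r2 := by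
    by_contra hcon
    have := (hc r2 (by omega) hr2b (by omega)).1 hr2
    omega
  -- the square which covers `r2`
  obtain ⟨s, L, hs1, hs2, hs3, hs4, hs5⟩ := hcov r2 hr2c0 (by omega) hr2b
  obtain ⟨b1, b2, b3⟩ := back hs5 hs3 hs4
  have hL : r2 - L = lo := by
    rcases hpos (r2 - L) (by omega) (by omega) (by rw [b1, hr2]) with h | h | h
    · exact h
    · omega
    · omega
  have hs : s = lo := by omega
  subst hs
  have hr2L : r2 = s + L := by omega
  subst hr2L
  have hL2 : 2 ≤ L := by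
    by_contra hcon
    have hL1 : L = 1 := by omega
    subst hL1
    exact hRQ (hr2.symm.trans h2)
  have hq2 : f (s + L + 1) = Q := by
    have := hs5 (s + 1) (by omega) (by omega)
    have e : s + 1 + L = s + L + 1 := by omega
    rw [e] at this
    rw [this, h2]
  have hQpos : ∀ i, s ≤ i → i < hi → f i = Q → i = s + 1 ∨ i = s + L + 1 := by
    intro i ha hb hf
    by_contra hcon
    push Not at hcon
    obtain ⟨c1, c2⟩ := hcon
    have hq2hi : s + L + 1 < hi := by
      have := hs2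
      omega
    -- three distinct positions of Q
    have key : ∀ x y z : ℕ, s ≤ x → x < y → y < z → z < hi → f x = Q → f y = Q → f z = Q → False := by
      intro x y z k1 k2 k3 k4 k5 k6 k7
      have e1 := cnt_add f Q (by omega : s ≤ y) (by omega : y ≤ hi)
      have e2 := cnt_add f Q (by omega : y ≤ z) (by omega : z ≤ hi)
      have e3 := cnt_pos f Q k1 k2 k5
      have e4 := cnt_pos f Q (le_refl y) k3 k6
      have e5 := cnt_pos f Q (le_refl z) k4 k7
      omega
    rcases lt_or_gt_of_ne c1 with h | h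
    · exact key i (s + 1) (s + L + 1) ha h (by omega) hq2hi hf h2 hq2
    · rcases lt_or_gt_of_ne c2 with h' | h'
      · exact key (s + 1) i (s + L + 1) (by omega) h h' hq2hi h2 hf hq2
      · exact key (s + 1) (s + L + 1) i (by omega) (by omega) h' hb h2 hq2 hf
  -- the square which covers `r3`
  obtain ⟨s', L', ht1, ht2, ht3, ht4, ht5⟩ := hcov r3 (by omega) (by omega) hr3b
  obtain ⟨d1, d2, d3⟩ := back ht5 ht3 ht4
  have hr3L : r3 = s + 2 * L := by
    rcases hpos (r3 - L') (by omega) (by omega) (by rw [d1, hr3]) with h | h | h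
    · -- impossible
      exfalso
      have hmem := ht5 (s + L) (by omega) (by omega)
      rw [hr2] at hmem
      rcases hpos (s + L + L') (by omega) (by omega) hmem with h' | h' | h' <;> omega
    · by_cases hb : s + L + 1 < s' + L'
      · exfalso
        have hmem := ht5 (s + L + 1) (by omega) hb
        rw [hq2] at hmem
        rcases hQpos (s + L + 1 + L') (by omega) (by omega) hmem with h' | h' <;> omega
      · have e1 : s' + L' = s + L + 1 := by omega
        have hmem := ht5 s' (le_refl _) (by omega)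
        rw [e1, hq2] at hmem
        rcases hQpos s' (by omega) (by omega) hmem.symm with h' | h' <;> omega
    · omega
  subst hr3L
  -- nothing follows
  have hend : hi = s + 2 * L + 1 := by
    by_contra hcon
    obtain ⟨s2, L2, hu1, hu2, hu3, hu4, hu5⟩ := hcov (s + 2 * L + 1) (by omega) (by omega) (by omega)
    by_cases hb : s2 + L2 ≤ s + 2 * L
    · obtain ⟨g1, g2, g3⟩ := back hu5 hb (by omega)
      obtain ⟨g4, g5, g6⟩ := back hu5 hu3 hu4
      have hQ1 : f (s + 2 * L + 1) = Q := by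
        rcases hpos (s + 2 * L - L2) (by omega) (by omega) (by rw [g1, hr3]) with h | h | h
        · have e : s + 2 * L + 1 - L2 = s + 1 := by omega
          rw [← g4, e, h2]
        · have e : s + 2 * L + 1 - L2 = s + L + 1 := by omega
          rw [← g4, e, hq2]
        · omega
      rcases hQpos _ (by omega) (by omega) hQ1 with h | h <;> omega
    · have e1 : s2 + L2 = s + 2 * L + 1 := by omega
      have hmem := hu5 (s + 2 * L) (by omega) (by omega)
      rw [hr3] at hmem
      rcases hpos _ (by omega) (by omega) hmem with h | h | h <;> omega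
  exact ⟨L, hL2, hend, hpos, hr2, hr3, hQpos, hs5, hr2c0⟩

end Pool.Agent.PSQ
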