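import Pool.Agent.Hhelper7.PSQ.Skel

/-!
# The core: forced commutation with an unbounded root

Letters: `7` (e), `8` (s), `1` (t), `9` (a).
-/

set_option autoImplicit false

namespace Pool.Agent.PSQ

theorem cnt_all (f : ℕ → ℕ) (c : ℕ) {a b : ℕ} (h : ∀ i, a ≤ i → i < b → f i = c) :
    cnt f c a b = b - a := by
  unfold cnt
  rw [Finset.sum_congr rfl (g := fun _ => 1)]
  · simp
  · intro i hi
    rw [Finset.mem_Ico] at hi
    rw [if_pos (h i hi.1 hi.2)]

theorem cnt_le (f : ℕ → ℕ) (c : ℕ) (a b : ℕ) : cnt f c a b ≤ b - a := by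
  unfold cnt
  calc ∑ i ∈ Finset.Ico a b, (if f i = c then 1 else 0) ≤ ∑ i ∈ Finset.Ico a b, 1 := by
        refine Finset.sum_le_sum fun i _ => ?_
        split_ifs <;> omega
    _ = b - a := by simp

/-- a word of period `D` which starts with `a^(D-1) e` and ends with `e` is a power -/
theorem power_count (g : ℕ → ℕ) (D : ℕ) (hD : 1 ≤ D) : ∀ l α : ℕ, 1 ≤ l →
    (∀ i, i + 1 < D → i < l → g (α + i) = 9) → (D ≤ l → g (α + D - 1) = 7) →
    (∀ t, α ≤ t → t + D < α + l → g (t + D) = g t) → g (α + l - 1) = 7 →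
    cnt g 9 α (α + l) = (D - 1) * cnt g 7 α (α + l) := by
  intro l
  induction l using Nat.strong_induction_on with
  | _ l ih =>
    intro α hl h1 h2 h3 h4
    have hDl : D ≤ l := by
      by_contra hcon
      have := h1 (l - 1) (by omega) (by omega)
      have e : α + (l - 1) = α + l - 1 := by omega
      rw [e, h4] at this
      omega
    have e1 := cnt_add g 9 (by omega : α ≤ α + (D - 1)) (by omega : α + (D - 1) ≤ α + l)
    have e2 := cnt_add g 7 (by omega : α ≤ α + (D - 1)) (by omega : α + (D - 1) ≤ α + l)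
    have e3 : cnt g 9 α (α + (D - 1)) = D - 1 := by
      have := cnt_all g 9 (a := α) (b := α + (D - 1)) (by
        intro i hi hi'
        have := h1 (i - α) (by omega) (by omega)
        have e : α + (i - α) = i := by omega
        rwa [e] at this)
      omega
    have e4 : cnt g 7 α (α + (D - 1)) = 0 := by
      refine cnt_zero g 7 ?_
      intro i hi hi'
      have := h1 (i - α) (by omega) (by omega)
      have e : α + (i - α) = i := by omega
      rw [e] at this
      omega
    have e5 := cnt_add g 9 (by omega : α + (D - 1) ≤ α + D) (by omega : α + D ≤ α + l)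
    have e6 := cnt_add g 7 (by omega : α + (D - 1) ≤ α + D) (by omega : α + D ≤ α + l)
    have h2' := h2 hDl
    have e7 : cnt g 9 (α + (D - 1)) (α + D) = 0 := by
      have := cnt_one g 9 (α + (D - 1))
      have e : α + (D - 1) + 1 = α + D := by omega
      have e' : α + (D - 1) = α + D - 1 := by omega
      rw [e, e', h2'] at this
      rw [e', this]
      simp
    have e8 : cnt g 7 (α + (D - 1)) (α + D) = 1 := by
      have := cnt_one g 7 (α + (D - 1))
      have e : α + (D - 1) + 1 = α + D := by omega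
      have e' : α + (D - 1) = α + D - 1 := by omega
      rw [e, e', h2'] at this
      rw [e', this]
      simp
    rcases Nat.eq_or_lt_of_le hDl with h5 | h5
    · -- l = D
      have z1 : cnt g 9 (α + D) (α + l) = 0 := by rw [h5]; exact cnt_self g 9 _
      have z2 : cnt g 7 (α + D) (α + l) = 0 := by rw [h5]; exact cnt_self g 7 _
      have z3 : cnt g 7 α (α + l) = 1 := by omega
      have z4 : cnt g 9 α (α + l) = D - 1 := by omega
      rw [z3, z4]
      omega
    · have h6 : D + D ≤ l := by
        by_contra hcon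
        have k1 := h3 (α + (l - D - 1)) (by omega) (by omega)
        have e : α + (l - D - 1) + D = α + l - 1 := by omega
        rw [e, h4] at k1
        have k2 := h1 (l - D - 1) (by omega) (by omega)
        omega
      have key := ih (l - D) (by omega) (α + D) (by omega) (by
          intro i hi hi'
          have k1 := h3 (α + i) (by omega) (by omega)
          have e : α + i + D = α + D + i := by omega
          rw [e] at k1
          rw [k1]
          exact h1 i hi (by omega)) (by
          intro _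
          have k1 := h3 (α + D - 1) (by omega) (by omega)
          have e : α + D - 1 + D = α + D + D - 1 := by omega
          rw [e] at k1
          rw [k1, h2']) (by
          intro t ht ht'
          exact h3 t (by omega) (by omega)) (by
          have e : α + D + (l - D) - 1 = α + l - 1 := by omega
          rw [e, h4])
      have e : α + D + (l - D) = α + l := by omega
      rw [e] at key
      have z3 : cnt g 7 α (α + l) = 1 + cnt g 7 (α + D) (α + l) := by omega
      have z4 : cnt g 9 α (α + l) = (D - 1) + cnt g 9 (α + D) (α + l) := by omega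
      rw [z3, z4, key]
      ring

theorem core (g : ℕ → ℕ) (N : ℕ) (h0 : g 0 = 7) (h1 : g 1 = 8) (h2 : g 2 = 1) (h3 : g 3 = 9)
    (hlast : g (N - 1) = 1) (hN : 4 < N)
    (hlet : ∀ i, i < N → g i = 1 ∨ g i = 7 ∨ g i = 8 ∨ g i = 9)
    (hs : cnt g 8 0 N = 4) (ht : cnt g 1 0 N = 4)
    (hcov : ∀ i, 4 ≤ i → i + 1 < N → Cov g 0 N i) :
    g (N - 2) = 8 ∧ (∀ i, i < N → g i = 8 → g (i + 1) = 1) ∧
      ∀ k, 1 ≤ k → cnt g 7 0 N = 2 * k + 3 → ∃ j, 1 ≤ j ∧ cnt g 9 0 N = (2 * k + 2) * j := by
  obtain ⟨s2, s3, s4, hs2ge, hs3ge, hs4ge, hNeq, hs2, hs3, hs4, hs2t, hs3t, hs4t, hS, hT⟩ :=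
    skeleton g N h0 h1 h2 h3 hlast hN hs ht hcov
  subst hNeq
  refine ⟨?_, ?_, ?_⟩
  · have e : s4 + 2 - 2 = s4 := by omega
    rw [e, hs4]
  · intro i hi hg
    rcases hS i hi hg with h | h | h | h
    · subst h; exact h2
    · subst h; exact hs2t
    · subst h; exact hs3t
    · subst h; exact hs4t
  intro k hk hE
  -- (6) the first block
  have hb1 : ∀ t, 3 ≤ t → t + 1 < s2 → g t = 9 := by
    intro t
    induction t using Nat.strong_induction_on with
    | _ t ih =>
      intro ht3 hts
      rcases Nat.eq_or_lt_of_le ht3 with h | h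
      · rw [← h, h3]
      · obtain ⟨s, L, hw1, hw2, hw3, hw4, hw5⟩ := hcov t (by omega) (by omega)
        have c1 : s + 2 * L ≤ s2 := by
          by_contra hcon
          obtain ⟨m1, m2, m3⟩ := back hw5 (by omega : s + L ≤ s2) (by omega)
          rcases hS (s2 - L) (by omega) (by rw [m1, hs2]) with h' | h' | h' | h' <;> omega
        have c2 : 3 ≤ s := by
          by_contra hcon
          by_cases hc : 2 < s + L
          · have m1 := hw5 2 (by omega) hc
            rw [h2] at m1
            rcases hT (2 + L) (by omega) m1 with h' | h' | h' | h' <;> omega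
          · obtain ⟨m1, m2, m3⟩ := back hw5 (by omega : s + L ≤ 2) (by omega)
            rcases hT (2 - L) (by omega) (by rw [m1, h2]) with h' | h' | h' | h' <;> omega
        obtain ⟨m1, m2, m3⟩ := back hw5 hw3 hw4
        rw [← m1]
        exact ih (t - L) (by omega) (by omega) (by omega)
  have hE1 : cnt g 7 3 s2 ≤ 1 := by
    have k1 := cnt_add g 7 (by omega : 3 ≤ s2 - 1) (by omega : s2 - 1 ≤ s2)
    have k2 : cnt g 7 3 (s2 - 1) = 0 := cnt_zero g 7 (by
      intro i hi hi'
      have := hb1 i hi (by omega)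
      omega)
    have k3 := cnt_le g 7 (s2 - 1) s2
    omega
  -- decomposition of counts
  have hpair : ∀ c x, c ≠ 1 → c ≠ 8 → g x = 8 → g (x + 1) = 1 → cnt g c x (x + 2) = 0 := by
    intro c x hc1 hc8 hx hx1
    rw [cnt_add g c (by omega : x ≤ x + 1) (by omega : x + 1 ≤ x + 2), cnt_one g c x,
      cnt_one g c (x + 1), hx, hx1, if_neg (Ne.symm hc8), if_neg (Ne.symm hc1)]
  have dec : ∀ c, c ≠ 1 → c ≠ 8 → cnt g c 0 (s4 + 2) =
      cnt g c 0 1 + cnt g c 3 s2 + cnt g c (s2 + 2) s3 + cnt g c (s3 + 2) s4 := by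
    intro c hc1 hc8
    have p1 : cnt g c 1 3 = 0 := hpair c 1 hc1 hc8 h1 h2
    have p2 := hpair c s2 hc1 hc8 hs2 hs2t
    have p3 := hpair c s3 hc1 hc8 hs3 hs3t
    have p4 := hpair c s4 hc1 hc8 hs4 hs4t
    have q1 := cnt_add g c (by omega : 0 ≤ 1) (by omega : 1 ≤ s4 + 2)
    have q2 := cnt_add g c (by omega : 1 ≤ 3) (by omega : 3 ≤ s4 + 2)
    have q3 := cnt_add g c (by omega : 3 ≤ s2) (by omega : s2 ≤ s4 + 2)
    have q4 := cnt_add g c (by omega : s2 ≤ s2 + 2) (by omega : s2 + 2 ≤ s4 + 2)
    have q5 := cnt_add g c (by omega : s2 + 2 ≤ s3) (by omega : s3 ≤ s4 + 2)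
    have q6 := cnt_add g c (by omega : s3 ≤ s3 + 2) (by omega : s3 + 2 ≤ s4 + 2)
    have q7 := cnt_add g c (by omega : s3 + 2 ≤ s4) (by omega : s4 ≤ s4 + 2)
    omega
  have d7 := dec 7 (by omega) (by omega)
  have d9 := dec 9 (by omega) (by omega)
  have z7 : cnt g 7 0 1 = 1 := by rw [cnt_one g 7 0, h0]; simp
  have z9 : cnt g 9 0 1 = 0 := by rw [cnt_one g 9 0, h0]; simp
  -- the degenerate case
  have hdeg : ∀ L, L = s3 - 1 → s4 = s2 + L → s3 ≤ s2 + 3 →
      (∀ t, 3 ≤ t → t < s2 → g (t + L) = g t) → False := by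
    intro L hL hL4 hle hcopy
    have k1 := cnt_shift g 7 hcopy
    have e1 : 3 + L = s3 + 2 := by omega
    rw [e1, ← hL4] at k1
    have k2 := cnt_le g 7 (s2 + 2) s3
    omega
  -- (7) the square which covers `s4`
  have A4 : s4 - s3 ≤ s3 - s2 ∧ ∀ t, s3 + 2 - (s4 - s3) ≤ t → t < s3 → g (t + (s4 - s3)) = g t := by
    obtain ⟨s, L, hw1, hw2, hw3, hw4, hw5⟩ := hcov s4 (by omega) (by omega)
    obtain ⟨m1, m2, m3⟩ := back hw5 hw3 hw4
    rcases hS (s4 - L) (by omega) (by rw [m1, hs4]) with h | h | h | h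
    · exfalso
      by_cases hc : s2 < s + L
      · have k1 := hw5 s2 (by omega) hc
        rw [hs2] at k1
        rcases hS (s2 + L) (by omega) k1 with h' | h' | h' | h' <;> omega
      · omega
    · exfalso
      by_cases hc : s3 < s + L
      · have k1 := hw5 s3 (by omega) hc
        rw [hs3] at k1
        rcases hS (s3 + L) (by omega) k1 with h' | h' | h' | h' <;> omega
      · obtain ⟨n1, n2, n3⟩ := back hw5 (by omega : s + L ≤ s3) (by omega)
        have n4 : s3 - L = 1 := by
          rcases hS (s3 - L) (by omega) (by rw [n1, hs3]) with h' | h' | h' | h' <;> omega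
        exact hdeg L (by omega) (by omega) (by omega) (fun t ht ht' => hw5 t (by omega) (by omega))
    · have hL : L = s4 - s3 := by omega
      subst hL
      refine ⟨?_, fun t ht ht' => hw5 t (by omega) (by omega)⟩
      by_contra hcon
      have k1 := hw5 (s2 + 1) (by omega) (by omega)
      rw [hs2t] at k1
      rcases hT (s2 + 1 + (s4 - s3)) (by omega) k1 with h' | h' | h' | h' <;> omega
    · omega
  obtain ⟨A4a, A4b⟩ := A4
  have hE3eq : ∀ c, cnt g c (s3 + 2) s4 = cnt g c (s3 + 2 - (s4 - s3)) s3 := by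
    intro c
    have k1 := cnt_shift g c A4b
    have e1 : s3 + 2 - (s4 - s3) + (s4 - s3) = s3 + 2 := by omega
    have e2 : s3 + (s4 - s3) = s4 := by omega
    rw [e1, e2] at k1
    exact k1
  have hE3 : cnt g 7 (s3 + 2) s4 ≤ cnt g 7 (s2 + 2) s3 := by
    rw [hE3eq 7]
    exact cnt_mono g 7 (by omega) (le_refl _)
  have hE2 : 2 ≤ cnt g 7 (s2 + 2) s3 := by omega
  have hlen : s2 + 4 ≤ s3 := by
    have := cnt_le g 7 (s2 + 2) s3
    omega
  -- (8) the square which covers `s3`
  obtain ⟨r, M, hr1, hr2, hr3, hr4, hr5⟩ := hcov s3 (by omega) (by omega)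
  obtain ⟨m1, m2, m3⟩ := back hr5 hr3 hr4
  have hM : s3 - M = s2 := by
    rcases hS (s3 - M) (by omega) (by rw [m1, hs3]) with h | h | h | h
    · exfalso
      have k1 := hr5 s2 (by omega) (by omega)
      rw [hs2] at k1
      rcases hS (s2 + M) (by omega) k1 with h' | h' | h' | h' <;> omega
    · exact h
    · omega
    · omega
  have hrM : s2 + 2 ≤ r + M := by
    by_contra hcon
    have e1 : r + M = s2 + 1 := by omega
    have k1 := hr5 r (le_refl _) (by omega)
    rw [e1, hs2t] at k1
    have hr : r = 2 := by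
      rcases hT r (by omega) k1.symm with h' | h' | h' | h' <;> omega
    subst hr
    have k2 := cnt_shift g 7 (a := 3) (b := s2) (L := M) (fun t ht ht' => hr5 t (by omega) (by omega))
    have e2 : 3 + M = s2 + 2 := by omega
    have e3 : s2 + M = s3 := by omega
    rw [e2, e3] at k2
    omega
  have hr3' : 3 ≤ r := by
    by_contra hcon
    have k1 := hr5 2 (by omega) (by omega)
    rw [h2] at k1
    rcases hT (2 + M) (by omega) k1 with h' | h' | h' | h' <;> omega
  have hr2M : r + 2 * M ≤ s4 := by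
    by_contra hcon
    obtain ⟨n1, n2, n3⟩ := back hr5 (by omega : r + M ≤ s4) (by omega)
    rcases hS (s4 - M) (by omega) (by rw [n1, hs4]) with h' | h' | h' | h' <;> omega
  have hpart : cnt g 7 (r + M) s3 ≤ 1 := by
    have k2 := cnt_shift g 7 (a := r) (b := s2) (L := M)
      (fun t ht ht' => hr5 t (by omega) (by omega))
    have e3 : s2 + M = s3 := by omega
    rw [e3] at k2
    rw [k2]
    exact le_trans (cnt_mono g 7 hr3' (le_refl _)) hE1
  have hpre : 1 ≤ cnt g 7 (s2 + 2) (r + M) := by
    have := cnt_add g 7 hrM (by omega : r + M ≤ s3)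
    omega
  obtain ⟨p, hp1, hp2, hp3, hp4, hp5⟩ := first_occ g 7 hpre
  have hp9 : ∀ i, s2 + 2 ≤ i → i < p → g i = 9 := by
    intro i hi hi'
    rcases hlet i (by omega) with h | h | h | h
    · rcases hT i (by omega) h with h' | h' | h' | h' <;> omega
    · exact absurd h (hp4 i hi hi')
    · rcases hS i (by omega) h with h' | h' | h' | h' <;> omega
    · exact h
  -- (10) the first `7` of the second block
  have hkey : p = 2 * s2 - 2 ∧ g (s2 - 1) = 7 := by
    obtain ⟨s', L', hw1, hw2, hw3, hw4, hw5⟩ := hcov p (by omega) (by omega)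
    obtain ⟨n1, n2, n3⟩ := back hw5 hw3 hw4
    rw [hp3] at n1
    have q1 : p - L' < s2 + 2 := by
      by_contra hcon
      exact hp4 (p - L') (by omega) (by omega) n1
    have q2 : p - L' ≠ s2 + 1 := by
      intro h
      rw [h] at n1
      omega
    have q3 : p - L' ≠ s2 := by
      intro h
      rw [h] at n1
      omega
    by_cases hc : s' + L' ≤ s2 + 1
    · obtain ⟨o1, o2, o3⟩ := back hw5 hc (by omega)
      have o4 : s2 + 1 - L' = 2 := by
        rcases hT (s2 + 1 - L') (by omega) (by rw [o1, hs2t]) with h' | h' | h' | h' <;> omega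
      have o5 : p - L' = s2 - 1 := by
        by_contra hcon
        have := hb1 (p - L') (by omega) (by omega)
        omega
      rw [o5] at n1
      exact ⟨by omega, n1⟩
    · exfalso
      have o1 := hw5 (s2 + 1) (by omega) (by omega)
      rw [hs2t] at o1
      rcases hT (s2 + 1 + L') (by omega) o1 with h' | h' | h' | h'
      · omega
      · omega
      · -- L' = s3 - s2
        have hL' : L' = M := by omega
        subst hL'
        have o2 : 3 ≤ p - L' := by
          by_contra hcon
          have k1 := hw5 2 (by omega) (by omega)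
          rw [h2] at k1
          rcases hT (2 + L') (by omega) k1 with h7 | h7 | h7 | h7 <;> omega
        have k2 := cnt_shift g 7 (a := p - L') (b := s2) (L := L')
          (fun t ht ht' => hw5 t (by omega) (by omega))
        have e2 : p - L' + L' = p := by omega
        have e3 : s2 + L' = s3 := by omega
        rw [e2, e3] at k2
        have k3 := cnt_mono g 7 o2 (le_refl s2)
        have k4 := cnt_add g 7 hp1 (by omega : p ≤ s3)
        have k5 : cnt g 7 (s2 + 2) p = 0 := cnt_zero g 7 hp4
        omega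
      · have o2 : L' = s4 - s2 := by omega
        by_cases hc3 : s3 < s' + L'
        · have k1 := hw5 s3 (by omega) hc3
          rw [hs3] at k1
          rcases hS (s3 + L') (by omega) k1 with h7 | h7 | h7 | h7 <;> omega
        · obtain ⟨u1, u2, u3⟩ := back hw5 (by omega : s' + L' ≤ s3) (by omega)
          rcases hS (s3 - L') (by omega) (by rw [u1, hs3]) with h7 | h7 | h7 | h7 <;> omega
  obtain ⟨hpeq, hK⟩ := hkey
  have hs25 : 5 ≤ s2 := by
    by_contra hcon
    have : s2 - 1 = 3 := by omega
    rw [this] at hK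
    omega
  have hE1' : cnt g 7 3 s2 = 1 := by
    have := cnt_pos g 7 (by omega : 3 ≤ s2 - 1) (by omega : s2 - 1 < s2) hK
    omega
  -- the length difference
  have hd1 : s4 - s3 < s3 - s2 := by
    by_contra hcon
    have e : s3 + 2 - (s4 - s3) = s2 + 2 := by omega
    have k1 := hE3eq 7
    rw [e] at k1
    omega
  -- (11) the common period
  have hper : ∀ t, s2 + 2 ≤ t → t < r + M → g (t + (M - (s4 - s3))) = g t := by
    intro t ht ht'
    have k1 := hr5 t (by omega) ht'
    have k2 := A4b (t + (M - (s4 - s3))) (by omega) (by omega)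
    have e : t + (M - (s4 - s3)) + (s4 - s3) = t + M := by omega
    rw [e] at k2
    rw [← k2, k1]
  have hdge : s2 - 3 ≤ M - (s4 - s3) := by
    by_contra hcon
    have k1 := hper (p - (M - (s4 - s3))) (by omega) (by omega)
    have e : p - (M - (s4 - s3)) + (M - (s4 - s3)) = p := by omega
    rw [e, hp3] at k1
    have k2 := hp9 (p - (M - (s4 - s3))) (by omega) (by omega)
    omega
  have hr : r = 3 := by omega
  subst hr
  have hD : M - (s4 - s3) = s2 - 3 := by omega
  rw [hD] at hper
  -- counts of the second block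
  have hlastU : g (s3 - 1) = 7 := by
    have k1 := hr5 (s2 - 1) (by omega) (by omega)
    have e : s2 - 1 + M = s3 - 1 := by omega
    rw [e, hK] at k1
    exact k1
  have hpow := power_count g (s2 - 3) (by omega) (s3 - (s2 + 2)) (s2 + 2) (by omega)
    (fun i hi hi' => hp9 (s2 + 2 + i) (by omega) (by omega))
    (fun _ => by
      have e : s2 + 2 + (s2 - 3) - 1 = p := by omega
      rw [e, hp3])
    (fun t ht ht' => hper t ht (by omega))
    (by
      have e : s2 + 2 + (s3 - (s2 + 2)) - 1 = s3 - 1 := by omega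
      rw [e, hlastU])
  have e1 : s2 + 2 + (s3 - (s2 + 2)) = s3 := by omega
  rw [e1] at hpow
  -- first root of the second block
  have e2 : s3 + 2 - (s4 - s3) = p + 1 := by omega
  have hV7 := hE3eq 7
  have hV9 := hE3eq 9
  rw [e2] at hV7 hV9
  have u1 := cnt_add g 7 (by omega : s2 + 2 ≤ p + 1) (by omega : p + 1 ≤ s3)
  have u2 := cnt_add g 9 (by omega : s2 + 2 ≤ p + 1) (by omega : p + 1 ≤ s3)
  have u3 := cnt_add g 7 hp1 (by omega : p ≤ p + 1)
  have u4 := cnt_add g 9 hp1 (by omega : p ≤ p + 1)
  have u5 : cnt g 7 (s2 + 2) p = 0 := cnt_zero g 7 hp4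
  have u6 : cnt g 9 (s2 + 2) p = p - (s2 + 2) := cnt_all g 9 hp9
  have u7 : cnt g 7 p (p + 1) = 1 := by rw [cnt_one, hp3]; simp
  have u8 : cnt g 9 p (p + 1) = 0 := by rw [cnt_one, hp3]; simp
  -- first block
  have v1 := cnt_add g 9 (by omega : 3 ≤ s2 - 1) (by omega : s2 - 1 ≤ s2)
  have v2 : cnt g 9 3 (s2 - 1) = s2 - 1 - 3 := cnt_all g 9 (fun i hi hi' => hb1 i hi (by omega))
  have v3 : cnt g 9 (s2 - 1) s2 = 0 := by
    have := cnt_one g 9 (s2 - 1)
    have e : s2 - 1 + 1 = s2 := by omega
    rw [e, hK] at this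
    rw [this]
    simp
  refine ⟨s2 - 4, by omega, ?_⟩
  have w1 : cnt g 7 (s2 + 2) s3 = k + 1 := by omega
  rw [w1] at hpow
  have w2 : s2 - 3 - 1 = s2 - 4 := by omega
  rw [w2] at hpow
  have w3 : cnt g 9 (s3 + 2) s4 + (s2 - 4) = (s2 - 4) * (k + 1) := by omega
  have w4 : cnt g 9 0 (s4 + 2) = (s2 - 4) + (s2 - 4) * (k + 1) + cnt g 9 (s3 + 2) s4 := by omega
  have w5 : cnt g 9 0 (s4 + 2) = 2 * ((s2 - 4) * (k + 1)) := by omega
  rw [w5]
  ring

end Pool.Agent.PSQ
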