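import Pool.Agent.Hhelper7.PSQ.Core

/-!
# The outer structure

Word of length `n` over the letters `0, …, 9`, with beginning `0 1 2 3 4 5 6 7 8 1 9`; every further
position is in the right half of a square.
-/

set_option autoImplicit false

namespace Pool.Agent.PSQ

theorem cnt_comp (f : ℕ → ℕ) (c d a b : ℕ) :
    cnt (fun t => f (t + d)) c a b = cnt f c (a + d) (b + d) := by
  unfold cnt
  rw [← Finset.sum_Ico_add']

theorem outer (f : ℕ → ℕ) (n : ℕ) (w0 : f 0 = 0) (w1 : f 1 = 1) (w2 : f 2 = 2) (w3 : f 3 = 3)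
    (w4 : f 4 = 4) (w5 : f 5 = 5) (w6 : f 6 = 6) (w7 : f 7 = 7) (w8 : f 8 = 8) (w9 : f 9 = 1)
    (w10 : f 10 = 9) (hn : 11 ≤ n) (hlet : ∀ i, i < n → f i ≤ 9)
    (hcov : ∀ i, 11 ≤ i → i < n → Cov f 0 n i)
    (c0 : cnt f 0 0 n = 1) (c1 : cnt f 1 0 n = 17) (c2 : cnt f 2 0 n = 2) (c3 : cnt f 3 0 n = 4)
    (c4 : cnt f 4 0 n = 3) (c5 : cnt f 5 0 n = 7) (c6 : cnt f 6 0 n = 5) (c8 : cnt f 8 0 n = 20)
    (k : ℕ) (hk : 1 ≤ k) (hE : cnt f 7 0 n = 5 * (2 * k + 3)) :
    ∃ j, 1 ≤ j ∧ cnt f 9 0 n = 5 * ((2 * k + 2) * j) := by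
  -- the letter `0`
  have hz : ∀ i, i < n → f i = 0 → i = 0 := by
    intro i hi hf
    by_contra hcon
    have k1 := cnt_add f 0 (by omega : 0 ≤ 1) (by omega : 1 ≤ n)
    have k2 := cnt_one f 0 0
    rw [w0] at k2
    simp only [Nat.zero_add, if_true] at k2
    have k3 := cnt_pos f 0 (by omega : 1 ≤ i) hi hf
    omega
  -- the letter `2`
  have k0 : cnt f 2 3 11 = 0 := cnt_zero f 2 (by
    intro i hi hi'
    interval_cases i <;> omega)
  have k0' : cnt f 2 0 2 = 0 := cnt_zero f 2 (by
    intro i hi hi'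
    interval_cases i <;> omega)
  have k1 : cnt f 2 11 n = 1 := by
    have a1 := cnt_add f 2 (by omega : 0 ≤ 2) (by omega : 2 ≤ n)
    have a2 := cnt_add f 2 (by omega : 2 ≤ 3) (by omega : 3 ≤ n)
    have a3 := cnt_add f 2 (by omega : 3 ≤ 11) (by omega : 11 ≤ n)
    have a4 : cnt f 2 2 3 = 1 := by
      have := cnt_one f 2 2
      rw [w2] at this
      simpa using this
    omega
  obtain ⟨l, hl1, hl2, hl3, hl4, hl5⟩ := first_occ f 2 (by omega : 1 ≤ cnt f 2 11 n)
  have hl6 := ne_of_cnt_zero f 2 (by omega : cnt f 2 (l + 1) n = 0)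
  have hlam : ∀ i, i < n → f i = 2 → i = 2 ∨ i = l := by
    intro i hi hf
    rcases Nat.lt_or_ge i 2 with h | h
    · exact absurd hf (ne_of_cnt_zero f 2 k0' i (by omega) h)
    rcases Nat.eq_or_lt_of_le h with h | h
    · exact Or.inl h.symm
    rcases Nat.lt_or_ge i 11 with h' | h'
    · exact absurd hf (ne_of_cnt_zero f 2 k0 i (by omega) h')
    rcases lt_trichotomy i l with h4 | h4 | h4
    · exact absurd hf (hl4 i h' h4)
    · exact Or.inr h4
    · exact absurd hf (hl6 i (by omega) hi)
  -- squares which contain a letter `2`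
  have hwl : ∀ s L, s + 2 * L ≤ n → 0 < L → (∀ t, s ≤ t → t < s + L → f (t + L) = f t) →
      s ≤ l → l < s + 2 * L → L = l - 2 ∧ s ≤ 2 := by
    intro s L hs1 hL hs2 hs3 hs4
    by_cases hc : l < s + L
    · have := hs2 l hs3 hc
      rw [hl3] at this
      rcases hlam (l + L) (by omega) this with h | h <;> omega
    · obtain ⟨b1, b2, b3⟩ := back hs2 (by omega : s + L ≤ l) hs4
      rcases hlam (l - L) (by omega) (by rw [b1, hl3]) with h | h <;> omega
  have hw2 : ∀ s L, s + 2 * L ≤ n → 0 < L → (∀ t, s ≤ t → t < s + L → f (t + L) = f t) →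
      s ≤ 2 → 2 < s + 2 * L → L = l - 2 := by
    intro s L hs1 hL hs2 hs3 hs4
    by_cases hc : 2 < s + L
    · have := hs2 2 hs3 hc
      rw [w2] at this
      rcases hlam (2 + L) (by omega) this with h | h <;> omega
    · obtain ⟨b1, b2, b3⟩ := back hs2 (by omega : s + L ≤ 2) hs4
      rcases hlam (2 - L) (by omega) (by rw [b1, w2]) with h | h <;> omega
  have hnz : ∀ s L, s + 2 * L ≤ n → 0 < L → (∀ t, s ≤ t → t < s + L → f (t + L) = f t) →
      1 ≤ s := by
    intro s L hs1 hL hs2
    by_contra hcon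
    have hs : s = 0 := by omega
    subst hs
    have := hs2 0 (le_refl _) (by omega)
    rw [w0] at this
    have := hz _ (by omega) this
    omega
  -- the copied part
  obtain ⟨E, hE1, hE2, hE3⟩ : ∃ E, (E = l ∨ (E = l - 1 ∧ f (l - 1) = 1 ∧
      ¬ (2 * l - 2 ≤ n ∧ f (2 * l - 3) = f (l - 1)))) ∧ E + (l - 2) ≤ n ∧
      ∀ t, 2 ≤ t → t < E → f (t + (l - 2)) = f t := by
    obtain ⟨s, L, hs1, hs2, hs3, hs4, hs5⟩ := hcov l hl1 hl2
    obtain ⟨hL, hs6⟩ := hwl s L hs2 (by omega) hs5 (by omega) hs4
    have hs7 := hnz s L hs2 (by omega) hs5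
    subst hL
    by_cases hcase : 2 * l - 2 ≤ n ∧ f (2 * l - 3) = f (l - 1)
    · refine ⟨l, Or.inl rfl, by omega, ?_⟩
      intro t ht ht'
      by_cases hc : t < s + (l - 2)
      · exact hs5 t (by omega) hc
      · have e : t = l - 1 := by omega
        have e' : t + (l - 2) = 2 * l - 3 := by omega
        rw [e', e]
        exact hcase.2
    · have hs8 : s = 1 := by
        by_contra hcon
        have hs9 : s = 2 := by omega
        subst hs9
        refine hcase ⟨by omega, ?_⟩
        have := hs5 (l - 1) (by omega) (by omega)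
        have e : l - 1 + (l - 2) = 2 * l - 3 := by omega
        rwa [e] at this
      subst hs8
      refine ⟨l - 1, Or.inr ⟨rfl, ?_, hcase⟩, by omega, fun t ht ht' => hs5 t (by omega) (by omega)⟩
      have := hs5 1 (by omega) (by omega)
      have e : 1 + (l - 2) = l - 1 := by omega
      rw [e, w1] at this
      exact this
  have hEge : 11 ≤ E := by
    rcases hE1 with h | ⟨h, h', -⟩
    · omega
    · have : l ≠ 11 := by
        intro h7
        subst h7
        rw [show (11 - 1 : ℕ) = 10 from rfl, w10] at h'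
        omega
      omega
  -- covers inside `[3, l)`
  have hcovY : ∀ i, 11 ≤ i → i < l → (f i ≠ 1 ∨ i + 1 < l) → Cov f 3 l i := by
    intro i hi1 hi2 hi3
    obtain ⟨s, L, hs1, hs2, hs3, hs4, hs5⟩ := hcov i hi1 (by omega)
    have hL : L ≠ l - 2 := by
      intro h
      have h1 := hnz s L hs2 (by omega) hs5
      have h2 : s = 1 ∧ i = l - 1 := by omega
      obtain ⟨b1, b2, b3⟩ := back hs5 hs3 hs4
      have e : i - L = 1 := by omega
      rw [e, w1] at b1
      rcases hi3 with h3 | h3
      · exact h3 b1.symm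
      · omega
    refine ⟨s, L, ?_, ?_, hs3, hs4, hs5⟩
    · by_contra hcon
      exact hL (hw2 s L hs2 (by omega) hs5 (by omega) (by omega))
    · by_contra hcon
      exact hL (hwl s L hs2 (by omega) hs5 (by omega) (by omega)).1
  -- decomposition of counts
  have hdec : ∀ c, cnt f c 0 n = cnt f c 0 3 + cnt f c 3 l + cnt f c l (l + 1) +
      cnt f c (l + 1) n := by
    intro c
    have a1 := cnt_add f c (by omega : 0 ≤ 3) (by omega : 3 ≤ n)
    have a2 := cnt_add f c (by omega : 3 ≤ l) (by omega : l ≤ n)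
    have a3 := cnt_add f c (by omega : l ≤ l + 1) (by omega : l + 1 ≤ n)
    omega
  have hl0 : ∀ c, c ≠ 2 → cnt f c l (l + 1) = 0 := by
    intro c hc
    rw [cnt_one, hl3, if_neg (Ne.symm hc)]
  have h03 : ∀ c, 3 ≤ c → cnt f c 0 3 = 0 := by
    intro c hc
    refine cnt_zero f c ?_
    intro i hi hi'
    interval_cases i <;> omega
  have hcopyE : ∀ c, cnt f c (l + 1) (E + (l - 2)) = cnt f c 3 E := by
    intro c
    have := cnt_shift f c (a := 3) (b := E) (L := l - 2) (fun t ht ht' => hE3 t (by omega) ht')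
    have e : 3 + (l - 2) = l + 1 := by omega
    rw [e] at this
    exact this
  have hEl : ∀ c, c ≠ 1 → cnt f c 3 l = cnt f c 3 E := by
    intro c hc
    rcases hE1 with h | ⟨h, h', -⟩
    · rw [h]
    · have a1 := cnt_add f c (by omega : 3 ≤ l - 1) (by omega : l - 1 ≤ l)
      have a2 : cnt f c (l - 1) l = 0 := by
        have := cnt_one f c (l - 1)
        have e : l - 1 + 1 = l := by omega
        rw [e, h', if_neg (Ne.symm hc)] at this
        exact this
      rw [h]
      omega
  have hle : ∀ c, c ≠ 1 → cnt f c 3 l ≤ cnt f c (l + 1) n := by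
    intro c hc
    rw [hEl c hc, ← hcopyE c]
    exact cnt_mono f c (le_refl _) hE2
  -- letters `3` and `4`
  have hy4 : cnt f 4 3 l = 1 ∧ cnt f 4 (l + 1) n = 2 := by
    have a1 := hdec 4
    have a2 := hl0 4 (by omega)
    have a3 := h03 4 (by omega)
    have a4 := hle 4 (by omega)
    have a5 := cnt_pos f 4 (by omega : 3 ≤ 4) (by omega : 4 < l) w4
    omega
  have hy3 : cnt f 3 3 l = 1 ∧ cnt f 3 (l + 1) n = 3 := by
    have a1 := hdec 3
    have a2 := hl0 3 (by omega)
    have a3 := h03 3 (by omega)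
    have a4 := hle 3 (by omega)
    have a5 := cnt_add f 3 (by omega : 3 ≤ 4) (by omega : 4 ≤ l)
    have a6 : cnt f 3 3 4 = 1 := by
      have := cnt_one f 3 3
      rw [w3] at this
      simpa using this
    have a7 : cnt f 3 4 l = 0 := by
      by_contra hcon
      obtain ⟨q, q1, q2, q3, q4, q5⟩ := first_occ f 3 (by omega : 1 ≤ cnt f 3 4 l)
      have q6 : 11 ≤ q := by
        by_contra hcon'
        have : q < 11 := by omega
        interval_cases q <;> omega
      obtain ⟨s, L, hs1, hs2, hs3, hs4, hs5⟩ := hcovY q q6 q2 (Or.inl (by omega))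
      obtain ⟨b1, b2, b3⟩ := back hs5 hs3 hs4
      have q7 : q - L = 3 := by
        by_contra hcon'
        exact q4 (q - L) (by omega) (by omega) (by rw [b1, q3])
      have q8 := hs5 4 (by omega) (by omega)
      rw [w4] at q8
      have q9 := cnt_add f 4 (by omega : 3 ≤ 5) (by omega : 5 ≤ l)
      have q10 := cnt_pos f 4 (by omega : 3 ≤ 4) (by omega : 4 < 5) w4
      have q11 := cnt_pos f 4 (by omega : 5 ≤ 4 + L) (by omega : 4 + L < l) q8
      omega
    omega
  have hu3 : ∀ i, 3 ≤ i → i < l → f i = 3 → i = 3 := by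
    intro i hi hi' hf
    by_contra hcon
    have a5 := cnt_add f 3 (by omega : 3 ≤ 4) (by omega : 4 ≤ l)
    have a6 := cnt_pos f 3 (le_refl 3) (by omega : 3 < 4) w3
    have a7 := cnt_pos f 3 (by omega : 4 ≤ i) hi' hf
    omega
  have hu4 : ∀ i, 3 ≤ i → i < l → f i = 4 → i = 4 := by
    intro i hi hi' hf
    by_contra hcon
    have hi3 : i ≠ 3 := by
      intro h
      rw [h] at hf
      omega
    have a5 := cnt_add f 4 (by omega : 3 ≤ 5) (by omega : 5 ≤ l)
    have a6 := cnt_pos f 4 (by omega : 3 ≤ 4) (by omega : 4 < 5) w4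
    have a7 := cnt_pos f 4 (by omega : 5 ≤ i) hi' hf
    omega
  -- covers in the last part
  have hcovS : ∀ i, E + (l - 2) ≤ i → i < n → Cov f (l + 1) n i := by
    intro i hi1 hi2
    obtain ⟨s, L, hs1, hs2, hs3, hs4, hs5⟩ := hcov i (by omega) hi2
    refine ⟨s, L, ?_, hs2, hs3, hs4, hs5⟩
    by_contra hcon
    obtain ⟨b1, b2⟩ := hwl s L hs2 (by omega) hs5 (by omega) (by omega)
    rcases hE1 with h | ⟨h, h', h''⟩
    · omega
    · refine h'' ⟨by omega, ?_⟩
      have := hs5 (l - 1) (by omega) (by omega)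
      rw [b1] at this
      have e : l - 1 + (l - 2) = 2 * l - 3 := by omega
      rwa [e] at this
  have g1 : f (l + 1) = 3 := by
    have := hE3 3 (by omega) (by omega)
    have e : 3 + (l - 2) = l + 1 := by omega
    rwa [e, w3] at this
  have g2 : f (l + 1 + 1) = 4 := by
    have := hE3 4 (by omega) (by omega)
    have e : 4 + (l - 2) = l + 1 + 1 := by omega
    rwa [e, w4] at this
  have g3 : f (l + 3) = 5 := by
    have := hE3 5 (by omega) (by omega)
    have e : 5 + (l - 2) = l + 3 := by omega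
    rwa [e, w5] at this
  have g4 : f (l + 3 + 1) = 6 := by
    have := hE3 6 (by omega) (by omega)
    have e : 6 + (l - 2) = l + 3 + 1 := by omega
    rwa [e, w6] at this
  -- back to the first copy
  have hbk : ∀ i, l + 1 ≤ i → i < E + (l - 2) → f (i - (l - 2)) = f i := by
    intro i hi hi'
    have := hE3 (i - (l - 2)) (by omega) (by omega)
    have e : i - (l - 2) + (l - 2) = i := by omega
    rw [e] at this
    exact this.symm
  have hEl' : E ≤ l := by rcases hE1 with h | ⟨h, -, -⟩ <;> omega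
  -- outer lock
  obtain ⟨L1, o1, o2, o3, o4, o5, o6, o7, o8⟩ := lock f 3 4 (l + 1) n (E + (l - 2)) (by omega) g1 g2
    (by omega) hy3.2 hy4.2 (by
      intro i hi hi' hi''
      have b1 := hbk i hi hi''
      constructor
      · intro hf
        have := hu3 (i - (l - 2)) (by omega) (by omega) (by rw [b1, hf])
        omega
      · intro hf
        have := hu4 (i - (l - 2)) (by omega) (by omega) (by rw [b1, hf])
        omega) (by
      intro i hi _ hi'
      exact hcovS i hi hi')
  -- counts in the last part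
  have hS2 : ∀ c, c ≠ 3 → cnt f c (l + 1) n = 2 * cnt f c (l + 1) (l + 1 + L1) := by
    intro c hc
    have a1 := cnt_add f c (by omega : l + 1 ≤ l + 1 + L1) (by omega : l + 1 + L1 ≤ n)
    have a2 := cnt_add f c (by omega : l + 1 + L1 ≤ l + 1 + L1 + L1) (by omega : _ ≤ n)
    have a3 := cnt_shift f c o7
    have a4 : cnt f c (l + 1 + L1 + L1) n = 0 := by
      have := cnt_one f c (l + 1 + 2 * L1)
      rw [o5, if_neg (Ne.symm hc)] at this
      have e : l + 1 + L1 + L1 = l + 1 + 2 * L1 := by omega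
      rw [e, o2]
      exact this
    omega
  have hyT : ∀ c, c ≠ 1 → cnt f c 3 l ≤ cnt f c (l + 1) (l + 1 + L1) := by
    intro c hc
    rw [hEl c hc, ← hcopyE c]
    exact cnt_mono f c (le_refl _) o8
  have hy5 : cnt f 5 3 l = 1 ∧ cnt f 5 (l + 1) (l + 1 + L1) = 3 := by
    have a1 := hdec 5
    have a2 := hl0 5 (by omega)
    have a3 := h03 5 (by omega)
    have a4 := hyT 5 (by omega)
    have a5 := cnt_pos f 5 (by omega : 3 ≤ 5) (by omega : 5 < l) w5
    have a6 := hS2 5 (by omega)
    omega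
  have hy6 : cnt f 6 3 l = 1 ∧ cnt f 6 (l + 1) (l + 1 + L1) = 2 := by
    have a1 := hdec 6
    have a2 := hl0 6 (by omega)
    have a3 := h03 6 (by omega)
    have a4 := hyT 6 (by omega)
    have a5 := cnt_pos f 6 (by omega : 3 ≤ 6) (by omega : 6 < l) w6
    have a6 := hS2 6 (by omega)
    omega
  have hu5 : ∀ i, 3 ≤ i → i < l → f i = 5 → i = 5 := by
    intro i hi hi' hf
    by_contra hcon
    have a7 : i = 3 ∨ i = 4 ∨ 6 ≤ i := by omega
    rcases a7 with h | h | h
    · rw [h] at hf; omega
    · rw [h] at hf; omega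
    · have a5 := cnt_add f 5 (by omega : 3 ≤ 6) (by omega : 6 ≤ l)
      have a6 := cnt_pos f 5 (by omega : 3 ≤ 5) (by omega : 5 < 6) w5
      have a7 := cnt_pos f 5 h hi' hf
      omega
  have hu6 : ∀ i, 3 ≤ i → i < l → f i = 6 → i = 6 := by
    intro i hi hi' hf
    by_contra hcon
    have a7 : i = 3 ∨ i = 4 ∨ i = 5 ∨ 7 ≤ i := by omega
    rcases a7 with h | h | h | h
    · rw [h] at hf; omega
    · rw [h] at hf; omega
    · rw [h] at hf; omega
    · have a5 := cnt_add f 6 (by omega : 3 ≤ 7) (by omega : 7 ≤ l)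
      have a6 := cnt_pos f 6 (by omega : 3 ≤ 6) (by omega : 6 < 7) w6
      have a7 := cnt_pos f 6 h hi' hf
      omega
  -- covers in the inner part
  have hcovT : ∀ i, E + (l - 2) ≤ i → i < l + 1 + L1 → Cov f (l + 3) (l + 1 + L1) i := by
    intro i hi1 hi2
    obtain ⟨s, L, hs1, hs2, hs3, hs4, hs5⟩ := hcovS i hi1 (by omega)
    have d1 : s ≠ l + 1 := by
      intro h
      have := hs5 (l + 1) (by omega) (by omega)
      rw [g1] at this
      rcases o3 (l + 1 + L) (by omega) (by omega) this with h' | h' | h' <;> omega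
    have d2 : s ≠ l + 1 + 1 := by
      intro h
      have := hs5 (l + 1 + 1) (by omega) (by omega)
      rw [g2] at this
      rcases o6 (l + 1 + 1 + L) (by omega) (by omega) this with h' | h' <;> omega
    refine ⟨s, L, by omega, ?_, hs3, hs4, hs5⟩
    by_contra hcon
    obtain ⟨b1, b2, b3⟩ := back hs5 (by omega : s + L ≤ l + 1 + L1) (by omega)
    rcases o3 (l + 1 + L1 - L) (by omega) (by omega) (by rw [b1, o4]) with h' | h' | h' <;> omega
  have hst : ∀ c, c ≠ 3 → c ≠ 4 → ∀ b, l + 3 ≤ b → cnt f c (l + 1) b = cnt f c (l + 3) b := by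
    intro c hc3 hc4 b hb
    have a1 := cnt_add f c (by omega : l + 1 ≤ l + 1 + 1) (by omega : l + 1 + 1 ≤ b)
    have a2 := cnt_add f c (by omega : l + 1 + 1 ≤ l + 1 + 1 + 1) (by omega : l + 1 + 1 + 1 ≤ b)
    have a3 := cnt_one f c (l + 1)
    have a4 := cnt_one f c (l + 1 + 1)
    rw [g1, if_neg (Ne.symm hc3)] at a3
    rw [g2, if_neg (Ne.symm hc4)] at a4
    have e : l + 1 + 1 + 1 = l + 3 := by omega
    rw [e] at a2 a4
    omega
  -- inner lock
  obtain ⟨L2, p1, p2, p3, p4, p5, p6, p7, p8⟩ := lock f 5 6 (l + 3) (l + 1 + L1) (E + (l - 2))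
    (by omega) g3 g4 (by omega) (by
      rw [← hst 5 (by omega) (by omega) _ (by omega)]
      exact hy5.2) (by
      rw [← hst 6 (by omega) (by omega) _ (by omega)]
      exact hy6.2) (by
      intro i hi hi' hi''
      have b1 := hbk i (by omega) hi''
      constructor
      · intro hf
        have := hu5 (i - (l - 2)) (by omega) (by omega) (by rw [b1, hf])
        omega
      · intro hf
        have := hu6 (i - (l - 2)) (by omega) (by omega) (by rw [b1, hf])
        omega) (by
      intro i hi _ hi'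
      exact hcovT i hi hi')
  have hT2 : ∀ c, c ≠ 3 → c ≠ 4 → c ≠ 5 → cnt f c (l + 1) (l + 1 + L1) =
      2 * cnt f c (l + 3) (l + 3 + L2) := by
    intro c hc3 hc4 hc5
    rw [hst c hc3 hc4 _ (by omega)]
    have a1 := cnt_add f c (by omega : l + 3 ≤ l + 3 + L2) (by omega : l + 3 + L2 ≤ l + 1 + L1)
    have a2 := cnt_add f c (by omega : l + 3 + L2 ≤ l + 3 + L2 + L2)
      (by omega : l + 3 + L2 + L2 ≤ l + 1 + L1)
    have a3 := cnt_shift f c p7
    have a4 : cnt f c (l + 3 + L2 + L2) (l + 1 + L1) = 0 := by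
      have := cnt_one f c (l + 3 + 2 * L2)
      rw [p5, if_neg (Ne.symm hc5)] at this
      have e : l + 3 + L2 + L2 = l + 3 + 2 * L2 := by omega
      rw [e, p2]
      exact this
    omega
  have hcE : ∀ c, c ≠ 3 → c ≠ 4 → cnt f c (l + 3) (E + (l - 2)) = cnt f c 3 E := by
    intro c hc3 hc4
    rw [← hst c hc3 hc4 _ (by omega)]
    exact hcopyE c
  have hcE' : ∀ c, cnt f c (l + 3) (l + 3 + L2) = cnt f c (l + 3) (E + (l - 2)) +
      cnt f c (E + (l - 2)) (l + 3 + L2) := by
    intro c
    exact cnt_add f c (by omega) p8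
  -- the letters `8` and `1`
  have hy8 : cnt f 8 3 l = 4 ∧ cnt f 8 (l + 3) (l + 3 + L2) = 4 := by
    have a1 := hdec 8
    have a2 := hl0 8 (by omega)
    have a3 := h03 8 (by omega)
    have a4 := hEl 8 (by omega)
    have a5 := cnt_pos f 8 (by omega : 3 ≤ 8) (by omega : 8 < l) w8
    have a6 := hS2 8 (by omega)
    have a7 := hT2 8 (by omega) (by omega) (by omega)
    have a8 := hcE 8 (by omega) (by omega)
    have a9 := hcE' 8
    omega
  have hy1 : cnt f 1 3 l = 4 ∧ cnt f 1 (l + 3) (l + 3 + L2) = 3 ∧ E = l - 1 ∧ f (l - 1) = 1 := by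
    have a1 := hdec 1
    have a2 := hl0 1 (by omega)
    have a3 : cnt f 1 0 3 = 1 := by
      have b1 := cnt_add f 1 (by omega : 0 ≤ 1) (by omega : 1 ≤ 3)
      have b2 := cnt_add f 1 (by omega : 1 ≤ 2) (by omega : 2 ≤ 3)
      have b3 := cnt_one f 1 0
      have b4 := cnt_one f 1 1
      have b5 := cnt_one f 1 2
      rw [w0] at b3
      rw [w1] at b4
      rw [w2] at b5
      simp at b3 b4 b5
      omega
    have a5 := cnt_pos f 1 (by omega : 3 ≤ 9) (by omega : 9 < l) w9
    have a6 := hS2 1 (by omega)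
    have a7 := hT2 1 (by omega) (by omega) (by omega)
    have a8 := hcE 1 (by omega) (by omega)
    have a9 := hcE' 1
    rcases hE1 with h | ⟨h, h', -⟩
    · exfalso
      have a8' : cnt f 1 (l + 3) (E + (l - 2)) = cnt f 1 3 l := by
        rw [a8, h]
      omega
    · have b1 := cnt_add f 1 (by omega : 3 ≤ l - 1) (by omega : l - 1 ≤ l)
      have b2 := cnt_le f 1 (l - 1) l
      have a8' : cnt f 1 (l + 3) (E + (l - 2)) = cnt f 1 3 (l - 1) := by
        rw [a8, h]
      refine ⟨by omega, by omega, h, h'⟩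
  obtain ⟨hy1a, hy1b, hEeq, hlast⟩ := hy1
  have hl12 : 12 ≤ l := by omega
  -- the core word
  have h37 : ∀ c, 7 ≤ c ∨ c = 1 → cnt f c 3 l = cnt f c 7 l := by
    intro c hc
    have a1 := cnt_add f c (by omega : 3 ≤ 7) (by omega : 7 ≤ l)
    have a2 : cnt f c 3 7 = 0 := cnt_zero f c (by
      intro i hi hi'
      interval_cases i <;> omega)
    omega
  have hcc : ∀ c, cnt (fun t => f (t + 7)) c 0 (l - 7) = cnt f c 7 l := by
    intro c
    rw [cnt_comp]
    have e1 : 0 + 7 = 7 := rfl
    have e2 : l - 7 + 7 = l := by omega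
    rw [e1, e2]
  obtain ⟨q1, q2, q3⟩ := core (fun t => f (t + 7)) (l - 7) w7 w8 w9 w10 (by
      have e : l - 7 - 1 + 7 = l - 1 := by omega
      show f (l - 7 - 1 + 7) = 1
      rw [e, hlast]) (by omega) (by
      intro i hi
      show f (i + 7) = 1 ∨ f (i + 7) = 7 ∨ f (i + 7) = 8 ∨ f (i + 7) = 9
      have a1 := hlet (i + 7) (by omega)
      have a2 : f (i + 7) ≠ 0 := fun h => by
        have := hz (i + 7) (by omega) h
        omega
      have a3 : f (i + 7) ≠ 2 := fun h => by
        rcases hlam (i + 7) (by omega) h with h' | h' <;> omega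
      have a4 : f (i + 7) ≠ 3 := fun h => by
        have := hu3 (i + 7) (by omega) (by omega) h
        omega
      have a5 : f (i + 7) ≠ 4 := fun h => by
        have := hu4 (i + 7) (by omega) (by omega) h
        omega
      have a6 : f (i + 7) ≠ 5 := fun h => by
        have := hu5 (i + 7) (by omega) (by omega) h
        omega
      have a7 : f (i + 7) ≠ 6 := fun h => by
        have := hu6 (i + 7) (by omega) (by omega) h
        omega
      omega) (by
      rw [hcc, ← h37 8 (by omega)]
      exact hy8.1) (by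
      rw [hcc, ← h37 1 (by omega)]
      exact hy1a) (by
      intro i hi hi'
      obtain ⟨s, L, hs1, hs2, hs3, hs4, hs5⟩ := hcovY (i + 7) (by omega) (by omega)
        (Or.inr (by omega))
      have hs6 : 7 ≤ s := by
        by_contra hcon
        by_cases hc : 6 < s + L
        · have := hs5 6 (by omega) hc
          rw [w6] at this
          have := hu6 (6 + L) (by omega) (by omega) this
          omega
        · obtain ⟨b1, b2, b3⟩ := back hs5 (by omega : s + L ≤ 6) (by omega)
          have := hu6 (6 - L) (by omega) (by omega) (by rw [b1, w6])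
          omega
      refine ⟨s - 7, L, by omega, by omega, by omega, by omega, ?_⟩
      intro t ht ht'
      show f (t + L + 7) = f (t + 7)
      have := hs5 (t + 7) (by omega) (by omega)
      have e : t + 7 + L = t + L + 7 := by omega
      rwa [e] at this)
  have q1' : f (l - 2) = 8 := by
    have e : l - 7 - 2 + 7 = l - 2 := by omega
    have : f (l - 7 - 2 + 7) = 8 := q1
    rwa [e] at this
  have q2' : ∀ i, 7 ≤ i → i < l → f i = 8 → f (i + 1) = 1 := by
    intro i hi hi' hf
    have e : i - 7 + 7 = i := by omega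
    have e' : i - 7 + 1 + 7 = i + 1 := by omega
    have := q2 (i - 7) (by omega) (by
      show f (i - 7 + 7) = 8
      rw [e, hf])
    have h7 : f (i - 7 + 1 + 7) = 1 := this
    rwa [e'] at h7
  -- nothing is added after the copy of the core
  have hfin : l + 3 + L2 = E + (l - 2) := by
    by_contra hcon
    have hlt : E + (l - 2) < l + 3 + L2 := by omega
    have z8 : cnt f 8 (E + (l - 2)) (l + 3 + L2) = 0 := by
      have a4 := hEl 8 (by omega)
      have a8 := hcE 8 (by omega) (by omega)
      have a9 := hcE' 8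
      omega
    have z1 : cnt f 1 (E + (l - 2)) (l + 3 + L2) = 0 := by
      have a8 := hcE 1 (by omega) (by omega)
      have a9 := hcE' 1
      have b1 := cnt_add f 1 (by omega : 3 ≤ l - 1) (by omega : l - 1 ≤ l)
      have b2 := cnt_le f 1 (l - 1) l
      rw [hEeq] at a8 a9 ⊢
      omega
    obtain ⟨s, L, hs1, hs2, hs3, hs4, hs5⟩ := hcovT (E + (l - 2)) (le_refl _) (by omega)
    have d1 : s ≠ l + 3 := by
      intro h
      have := hs5 (l + 3) (by omega) (by omega)
      rw [g3] at this
      rcases p3 (l + 3 + L) (by omega) (by omega) this with h' | h' | h' <;> omega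
    have d2 : s ≠ l + 3 + 1 := by
      intro h
      have := hs5 (l + 3 + 1) (by omega) (by omega)
      rw [g4] at this
      rcases p6 (l + 3 + 1 + L) (by omega) (by omega) this with h' | h' <;> omega
    have hprev : f (E + (l - 2) - 1) = 8 := by
      have := hE3 (l - 2) (by omega) (by omega)
      have e : l - 2 + (l - 2) = E + (l - 2) - 1 := by omega
      rw [e, q1'] at this
      exact this
    by_cases hc : s + L ≤ E + (l - 2) - 1
    · obtain ⟨b1, b2, b3⟩ := back hs5 hc (by omega)
      obtain ⟨b4, b5, b6⟩ := back hs5 hs3 hs4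
      rw [hprev] at b1
      have b7 := hbk (E + (l - 2) - 1 - L) (by omega) (by omega)
      rw [b1] at b7
      have b8 := q2' (E + (l - 2) - 1 - L - (l - 2)) (by omega) (by omega) b7
      have b9 := hbk (E + (l - 2) - L) (by omega) (by omega)
      have e : E + (l - 2) - 1 - L - (l - 2) + 1 = E + (l - 2) - L - (l - 2) := by omega
      rw [e, b9, b4] at b8
      exact ne_of_cnt_zero f 1 z1 (E + (l - 2)) (le_refl _) hlt b8
    · have hsL : s + L = E + (l - 2) := by omega
      have b1 := hs5 (E + (l - 2) - 1) (by omega) (by omega)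
      rw [hprev] at b1
      have b2 : l + 3 + L2 ≤ E + (l - 2) - 1 + L := by
        by_contra hcon'
        exact ne_of_cnt_zero f 8 z8 (E + (l - 2) - 1 + L) (by omega) (by omega) b1
      obtain ⟨b3, b4, b5⟩ := back hs5 (by omega : s + L ≤ l + 3 + L2) (by omega)
      rcases p3 (l + 3 + L2 - L) (by omega) (by omega) (by rw [b3, p4]) with h' | h' | h' <;> omega
  -- the final count
  have hfinal : ∀ c, c = 7 ∨ c = 9 → cnt f c 0 n = 5 * cnt f c 7 l := by
    intro c hc
    have hc1 : c ≠ 1 := by omega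
    have a1 := hdec c
    have a2 := hl0 c (by omega)
    have a3 := h03 c (by omega)
    have a4 := hEl c hc1
    have a6 := hS2 c (by omega)
    have a7 := hT2 c (by omega) (by omega) (by omega)
    have a8 := hcE c (by omega) (by omega)
    have a9 := hcE' c
    have a10 : cnt f c (E + (l - 2)) (l + 3 + L2) = 0 := by
      rw [hfin]
      exact cnt_self f c _
    have a11 := h37 c (by omega)
    omega
  have r7 := hfinal 7 (by omega)
  have r9 := hfinal 9 (by omega)
  have r7' := hcc 7
  have r9' := hcc 9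
  obtain ⟨j, hj1, hj2⟩ := q3 k hk (by omega)
  refine ⟨j, hj1, ?_⟩
  rw [r9, ← r9', hj2]

end Pool.Agent.PSQ
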