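import Pool.Agent.Hhelper7.PSQ.Basic

/-!
# The skeleton of the core word

Letters: `7` (e), `8` (s), `1` (t), `9` (a).
-/

set_option autoImplicit false

namespace Pool.Agent.PSQ

/-- the four positions of the letter `8` and the four positions of the letter `1` -/
theorem skeleton (g : ℕ → ℕ) (N : ℕ) (h0 : g 0 = 7) (h1 : g 1 = 8) (h2 : g 2 = 1) (h3 : g 3 = 9)
    (hlast : g (N - 1) = 1) (hN : 4 < N)
    (hs : cnt g 8 0 N = 4) (ht : cnt g 1 0 N = 4)
    (hcov : ∀ i, 4 ≤ i → i + 1 < N → Cov g 0 N i) :
    ∃ s2 s3 s4, 4 ≤ s2 ∧ s2 + 2 ≤ s3 ∧ s3 + 2 ≤ s4 ∧ N = s4 + 2 ∧ g s2 = 8 ∧ g s3 = 8 ∧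
      g s4 = 8 ∧ g (s2 + 1) = 1 ∧ g (s3 + 1) = 1 ∧ g (s4 + 1) = 1 ∧
      (∀ i, i < N → g i = 8 → i = 1 ∨ i = s2 ∨ i = s3 ∨ i = s4) ∧
      (∀ i, i < N → g i = 1 → i = 2 ∨ i = s2 + 1 ∨ i = s3 + 1 ∨ i = s4 + 1) := by
  -- positions of `8`
  have e0 : cnt g 8 0 2 = 1 := by
    rw [cnt_add g 8 (by omega : 0 ≤ 1) (by omega : 1 ≤ 2), cnt_one g 8 0, cnt_one g 8 1, h0, h1]
    simp
  have e1 : cnt g 8 2 N = 3 := by
    have := cnt_add g 8 (by omega : 0 ≤ 2) (by omega : 2 ≤ N)
    omega
  obtain ⟨s2, hs2a, hs2b, hs2, hs2min, hs2c⟩ := first_occ g 8 (by omega : 1 ≤ cnt g 8 2 N)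
  obtain ⟨s3, hs3a, hs3b, hs3, hs3min, hs3c⟩ := first_occ g 8 (by omega : 1 ≤ cnt g 8 (s2 + 1) N)
  obtain ⟨s4, hs4a, hs4b, hs4, hs4min, hs4c⟩ := first_occ g 8 (by omega : 1 ≤ cnt g 8 (s3 + 1) N)
  have hs5 := ne_of_cnt_zero g 8 (by omega : cnt g 8 (s4 + 1) N = 0)
  have hS : ∀ i, i < N → g i = 8 → i = 1 ∨ i = s2 ∨ i = s3 ∨ i = s4 := by
    intro i hi hg
    by_contra hcon
    push Not at hcon
    obtain ⟨c1, c2, c3, c4⟩ := hcon
    rcases Nat.lt_or_ge i 2 with h | h
    · have : i = 0 := by omega
      subst this
      omega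
    rcases lt_or_gt_of_ne c2 with h' | h'
    · exact hs2min i h h' hg
    rcases lt_or_gt_of_ne c3 with h'' | h''
    · exact hs3min i (by omega) h'' hg
    rcases lt_or_gt_of_ne c4 with h4 | h4
    · exact hs4min i (by omega) h4 hg
    exact hs5 i (by omega) hi hg
  have hs2ge : 4 ≤ s2 := by
    by_contra hcon
    have : s2 = 2 ∨ s2 = 3 := by omega
    rcases this with h | h
    · subst h; omega
    · subst h; omega
  have hs4N : s4 < N - 1 := by
    have : s4 ≠ N - 1 := by
      intro h
      rw [← h] at hlast
      omega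
    omega
  -- positions of `1`
  have f0 : cnt g 1 0 3 = 1 := by
    rw [cnt_add g 1 (by omega : 0 ≤ 1) (by omega : 1 ≤ 3), cnt_add g 1 (by omega : 1 ≤ 2)
      (by omega : 2 ≤ 3), cnt_one g 1 0, cnt_one g 1 1, cnt_one g 1 2, h0, h1, h2]
    simp
  have f1 : cnt g 1 3 (N - 1) = 2 := by
    have k1 := cnt_add g 1 (by omega : 0 ≤ 3) (by omega : 3 ≤ N)
    have k2 := cnt_add g 1 (by omega : 3 ≤ N - 1) (by omega : N - 1 ≤ N)
    have k3 : cnt g 1 (N - 1) N = 1 := by
      have := cnt_one g 1 (N - 1)
      have e : N - 1 + 1 = N := by omega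
      rw [e, hlast] at this
      simpa using this
    omega
  obtain ⟨t2, ht2a, ht2b, ht2, ht2min, ht2c⟩ := first_occ g 1 (by omega : 1 ≤ cnt g 1 3 (N - 1))
  obtain ⟨t3, ht3a, ht3b, ht3, ht3min, ht3c⟩ :=
    first_occ g 1 (by omega : 1 ≤ cnt g 1 (t2 + 1) (N - 1))
  have ht5 := ne_of_cnt_zero g 1 (by omega : cnt g 1 (t3 + 1) (N - 1) = 0)
  have hT : ∀ i, i < N → g i = 1 → i = 2 ∨ i = t2 ∨ i = t3 ∨ i = N - 1 := by
    intro i hi hg
    by_contra hcon
    push Not at hcon
    obtain ⟨c1, c2, c3, c4⟩ := hcon
    rcases Nat.lt_or_ge i 3 with h | h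
    · have : i = 0 ∨ i = 1 := by omega
      rcases this with h' | h'
      · subst h'; omega
      · subst h'; omega
    rcases lt_or_gt_of_ne c2 with h' | h'
    · exact ht2min i h h' hg
    rcases lt_or_gt_of_ne c3 with h'' | h''
    · exact ht3min i (by omega) h'' hg
    exact ht5 i (by omega) (by omega) hg
  have ht2ge : 4 ≤ t2 := by
    by_contra hcon
    have : t2 = 3 := by omega
    subst this; omega
  -- (1) the square which covers `s2`
  obtain ⟨s, L, hw1, hw2, hw3, hw4, hw5⟩ := hcov s2 hs2ge (by omega)
  obtain ⟨b1, b2, b3⟩ := back hw5 hw3 hw4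
  have hL : s2 - L = 1 := by
    rcases hS (s2 - L) (by omega) (by rw [b1, hs2]) with h | h | h | h <;> omega
  have hs2t : g (s2 + 1) = 1 := by
    have := hw5 2 (by omega) (by omega)
    have e : 2 + L = s2 + 1 := by omega
    rw [e] at this
    rw [this, h2]
  have hs3ge : s2 + 2 ≤ s3 := by
    have : s3 ≠ s2 + 1 := by
      intro h
      rw [h] at hs3
      omega
    omega
  -- (2) no `1` between `2` and `s2`
  have ht2eq : t2 = s2 + 1 := by
    by_contra hne
    have hlt : t2 < s2 := by
      rcases hT (s2 + 1) (by omega) hs2t with h | h | h | h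
      · omega
      · omega
      · have : t2 ≠ s2 := by
          intro h'
          rw [h'] at ht2
          omega
        omega
      · omega
    by_cases hc : t2 < s + L
    · have k1 := hw5 t2 (by omega) hc
      rw [ht2] at k1
      have k2 : t2 + L = N - 1 := by
        rcases hT (t2 + L) (by omega) k1 with h | h | h | h
        · omega
        · omega
        · exfalso
          rcases hT (s2 + 1) (by omega) hs2t with h' | h' | h' | h' <;> omega
        · exact h
      obtain ⟨m1, m2, m3⟩ := back hw5 (by omega : s + L ≤ s3) (by omega : s3 < s + 2 * L)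
      rcases hS (s3 - L) (by omega) (by rw [m1, hs3]) with h | h | h | h <;> omega
    · have k0 : s = 0 := by omega
      have k1 : t2 = L := by omega
      have k2 := hw5 0 (by omega) (by omega)
      rw [Nat.zero_add, h0, ← k1, ht2] at k2
      omega
  -- (4) `g (s3 + 1) = 1`
  have hs3t : g (s3 + 1) = 1 := by
    by_contra hne
    obtain ⟨s, L, hx1, hx2, hx3, hx4, hx5⟩ := hcov s3 (by omega) (by omega)
    obtain ⟨d1, d2, d3⟩ := back hx5 hx3 hx4
    rcases hS (s3 - L) (by omega) (by rw [d1, hs3]) with h | h | h | h
    · have k1 := hx5 2 (by omega) (by omega)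
      have e : 2 + L = s3 + 1 := by omega
      rw [e, h2] at k1
      exact hne k1
    · by_cases hc : s2 + 1 < s + L
      · have k1 := hx5 (s2 + 1) (by omega) hc
        have e : s2 + 1 + L = s3 + 1 := by omega
        rw [e, hs2t] at k1
        exact hne k1
      · have hsL : s + L = s2 + 1 := by omega
        have k1 := hx5 s (le_refl _) (by omega)
        rw [hsL, hs2t] at k1
        have hs2' : s = 2 := by
          rcases hT s (by omega) k1.symm with h' | h' | h' | h' <;> omega
        subst hs2'
        -- no `1` strictly between `s2 + 1` and `s3`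
        have ht3gt : s3 + 2 ≤ t3 := by
          by_contra hcon
          have c1 : t3 ≠ s3 + 1 := by
            intro h'
            rw [h'] at ht3
            exact hne ht3
          have c2 : t3 ≠ s3 := by
            intro h'
            rw [h'] at ht3
            omega
          obtain ⟨m1, m2, m3⟩ := back hx5 (by omega : 2 + L ≤ t3) (by omega : t3 < 2 + 2 * L)
          rcases hT (t3 - L) (by omega) (by rw [m1, ht3]) with h' | h' | h' | h' <;> omega
        have hi : s3 + 1 + 1 < N := by omega
        obtain ⟨s', L', hy1, hy2, hy3, hy4, hy5⟩ := hcov (s3 + 1) (by omega) hi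
        by_cases hc' : s' + L' ≤ s3
        · obtain ⟨m1, m2, m3⟩ := back hy5 hc' (by omega)
          obtain ⟨n1, n2, n3⟩ := back hy5 hy3 hy4
          rcases hS (s3 - L') (by omega) (by rw [m1, hs3]) with h' | h' | h' | h'
          · have e : s3 + 1 - L' = 2 := by omega
            rw [e, h2] at n1
            exact hne n1.symm
          · have e : s3 + 1 - L' = s2 + 1 := by omega
            rw [e, hs2t] at n1
            exact hne n1.symm
          · omega
          · omega
        · have hsL' : s' + L' = s3 + 1 := by omega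
          have m1 := hy5 s3 (by omega) (by omega)
          rw [hs3] at m1
          have m2 : s3 + L' = s4 := by
            rcases hS (s3 + L') (by omega) m1 with h' | h' | h' | h' <;> omega
          rcases Nat.lt_or_ge t3 s4 with h5 | h5
          · obtain ⟨n1, n2, n3⟩ := back hy5 (by omega : s' + L' ≤ t3) (by omega : t3 < s' + 2 * L')
            have hs'gt : s2 < s' := by
              by_contra hcon
              have q1 := hy5 s2 (by omega) (by omega)
              rw [hs2] at q1
              rcases hS (s2 + L') (by omega) q1 with h' | h' | h' | h' <;> omega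
            have q2 : t3 - L' = s2 + 1 := by
              rcases hT (t3 - L') (by omega) (by rw [n1, ht3]) with h' | h' | h' | h' <;> omega
            have q3 : s' = s2 + 1 := by omega
            have q4 := hy5 s' (le_refl _) (by omega)
            rw [hsL', q3, hs2t] at q4
            exact hne q4
          · have h6 : s4 < t3 := by
              have : s4 ≠ t3 := by
                intro h'
                rw [← h'] at ht3
                omega
              omega
            obtain ⟨s'', L'', hz1, hz2, hz3, hz4, hz5⟩ := hcov t3 (by omega) (by omega)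
            obtain ⟨p1, p2, p3⟩ := back hz5 hz3 hz4
            have p4 : t3 - L'' = 2 ∨ t3 - L'' = s2 + 1 := by
              rcases hT (t3 - L'') (by omega) (by rw [p1, ht3]) with h' | h' | h' | h' <;> omega
            by_cases hc'' : s'' + L'' ≤ s4
            · obtain ⟨q1, q2, q3⟩ := back hz5 hc'' (by omega)
              rcases hS (s4 - L'') (by omega) (by rw [q1, hs4]) with h' | h' | h' | h'
              · by_cases hc3 : s3 < s'' + L''
                · have r1 := hz5 s3 (by omega) hc3
                  rw [hs3] at r1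
                  rcases hS (s3 + L'') (by omega) r1 with h7 | h7 | h7 | h7 <;> omega
                · have r0 : s'' = 0 := by omega
                  have r2 : s3 = L'' := by omega
                  have r1 := hz5 0 (by omega) (by omega)
                  rw [Nat.zero_add, ← r2, hs3, h0] at r1
                  omega
              · by_cases hc3 : s3 < s'' + L''
                · have r1 := hz5 s3 (by omega) hc3
                  rw [hs3] at r1
                  rcases hS (s3 + L'') (by omega) r1 with h7 | h7 | h7 | h7 <;> omega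
                · obtain ⟨r1, r2, r3⟩ := back hz5 (by omega : s'' + L'' ≤ s3) (by omega)
                  have r4 : s3 - L'' = 1 := by
                    rcases hS (s3 - L'') (by omega) (by rw [r1, hs3]) with h7 | h7 | h7 | h7 <;>
                      omega
                  have r5 := hz5 2 (by omega) (by omega)
                  have e : 2 + L'' = s3 + 1 := by omega
                  rw [e, h2] at r5
                  exact hne r5
              · omega
              · omega
            · have r1 := hz5 s4 (by omega) (by omega)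
              rw [hs4] at r1
              rcases hS (s4 + L'') (by omega) r1 with h7 | h7 | h7 | h7 <;> omega
    · omega
    · omega
  have hs4ge : s3 + 2 ≤ s4 := by
    have : s4 ≠ s3 + 1 := by
      intro h
      rw [h] at hs4
      omega
    omega
  have ht3eq : t3 = s3 + 1 := by
    rcases hT (s3 + 1) (by omega) hs3t with h | h | h | h <;> omega
  -- (5) the end
  have hNeq : N = s4 + 2 := by
    by_contra hne
    obtain ⟨s, L, hx1, hx2, hx3, hx4, hx5⟩ := hcov (s4 + 1) (by omega) (by omega)
    by_cases hc : s + L ≤ s4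
    · obtain ⟨m1, m2, m3⟩ := back hx5 hc (by omega)
      obtain ⟨n1, n2, n3⟩ := back hx5 hx3 hx4
      have hg : g (s4 + 1) = 1 := by
        rcases hS (s4 - L) (by omega) (by rw [m1, hs4]) with h' | h' | h' | h'
        · have e : s4 + 1 - L = 2 := by omega
          rw [← n1, e, h2]
        · have e : s4 + 1 - L = s2 + 1 := by omega
          rw [← n1, e, hs2t]
        · have e : s4 + 1 - L = s3 + 1 := by omega
          rw [← n1, e, hs3t]
        · omega
      rcases hT (s4 + 1) (by omega) hg with h' | h' | h' | h' <;> omega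
    · have m1 := hx5 s4 (by omega) (by omega)
      rw [hs4] at m1
      rcases hS (s4 + L) (by omega) m1 with h' | h' | h' | h' <;> omega
  refine ⟨s2, s3, s4, hs2ge, hs3ge, hs4ge, hNeq, hs2, hs3, hs4, hs2t, hs3t, ?_, hS, ?_⟩
  · have e : s4 + 1 = N - 1 := by omega
    rw [e, hlast]
  · intro i hi hg
    rcases hT i hi hg with h | h | h | h
    · exact Or.inl h
    · exact Or.inr (Or.inl (by omega))
    · exact Or.inr (Or.inr (Or.inl (by omega)))
    · exact Or.inr (Or.inr (Or.inr (by omega)))

end Pool.Agent.PSQ
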