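import Pool.Agent.Hhelper7.PSQ.Outer
import Pool.Agent.Hhelper21.PSC.Defs

/-!
# From words to functions

A word over `Fin 10` which is obtained from the word `0 1 2 3 4 5 6 7 8 1 9` and contains the letter
`0` only once begins with this word, and each further position is covered by the right half of a
square.
-/

set_option autoImplicit false

namespace Pool.Agent.PSQ

open Pool.Agent.PSC

/-- the function of a word -/
def wf (u : List (Fin 10)) (i : ℕ) : ℕ := (u.getD i 0).val

/-- the start word -/
abbrev W0 : List (Fin 10) := [0, 1, 2, 3, 4, 5, 6, 7, 8, 1, 9]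

theorem wf_append_left (u v : List (Fin 10)) {i : ℕ} (h : i < u.length) :
    wf (u ++ v) i = wf u i := by
  unfold wf
  rw [List.getD_append _ _ _ _ h]

theorem wf_append_right (u v : List (Fin 10)) {i : ℕ} (h : u.length ≤ i) :
    wf (u ++ v) i = wf v (i - u.length) := by
  unfold wf
  rw [List.getD_append_right _ _ _ _ h]

theorem cnt_congr {f g : ℕ → ℕ} (c : ℕ) {a b : ℕ} (h : ∀ i, a ≤ i → i < b → f i = g i) :
    cnt f c a b = cnt g c a b := by
  unfold cnt
  refine Finset.sum_congr rfl fun i hi => ?_
  rw [Finset.mem_Ico] at hi
  rw [h i hi.1 hi.2]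

theorem count_eq_cnt (c : Fin 10) (u : List (Fin 10)) :
    u.count c = cnt (wf u) c.val 0 u.length := by
  induction u using List.reverseRecOn with
  | nil => simp [cnt]
  | append_singleton u a ih =>
    rw [List.count_append, ih, List.length_append, List.length_singleton,
      cnt_add (wf (u ++ [a])) c.val (Nat.zero_le u.length) (Nat.le_succ _), cnt_one]
    have h1 : cnt (wf (u ++ [a])) c.val 0 u.length = cnt (wf u) c.val 0 u.length :=
      cnt_congr _ fun i _ hi => wf_append_left u [a] hi
    have h2 : wf (u ++ [a]) u.length = a.val := by
      rw [wf_append_right u [a] le_rfl]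
      simp [wf]
    rw [h1, h2]
    congr 1
    by_cases h : a = c
    · subst h
      simp
    · have h' : ¬ a.val = c.val := fun h' => h (Fin.ext h')
      rw [if_neg h']
      simp [h]

/-- a repeated block -/
theorem wf_square (p x : List (Fin 10)) {t : ℕ} (h1 : p.length ≤ t) (h2 : t < p.length + x.length) :
    wf (p ++ x ++ x) (t + x.length) = wf (p ++ x ++ x) t := by
  rw [wf_append_right (p ++ x) x (by rw [List.length_append]; omega),
    wf_append_left (p ++ x) x (by rw [List.length_append]; omega),
    wf_append_right p x h1, List.length_append]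
  congr 1
  omega

theorem one_le_count {u : List (Fin 10)} (h : Reach W0 u) : 1 ≤ u.count 0 := by
  induction h with
  | refl => decide
  | tail _ hs ih =>
    cases hs with
    | suf p x y =>
      rw [List.count_append]
      omega
    | pre q x y =>
      rw [List.count_append]
      omega

theorem static {u : List (Fin 10)} (h : Reach W0 u) (h0 : u.count 0 = 1) :
    ∃ v, u = W0 ++ v ∧ ∀ i, 11 ≤ i → i < u.length → Cov (wf u) 0 u.length i := by
  induction h with
  | refl =>
    refine ⟨[], by simp, ?_⟩
    intro i h1 h2
    simp only [List.length_cons, List.length_nil] at h2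
    omega
  | tail hr hs ih =>
    have hge := one_le_count hr
    cases hs with
    | suf p x y =>
      rw [List.count_append] at h0
      obtain ⟨v, hv, hc⟩ := ih (by omega)
      refine ⟨v ++ x, by rw [hv, List.append_assoc], ?_⟩
      intro i h1 h2
      by_cases hi : i < (p ++ y ++ x ++ y).length
      · obtain ⟨s, L, e1, e2, e3, e4, e5⟩ := hc i h1 hi
        refine ⟨s, L, e1, ?_, e3, e4, ?_⟩
        · rw [List.length_append (as := p ++ y ++ x ++ y)]
          omega
        · intro t ht ht'
          rw [wf_append_left _ x (by omega), wf_append_left _ x (by omega)]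
          exact e5 t ht ht'
      · have hlen : (p ++ y ++ x ++ y).length = p.length + y.length + x.length + y.length := by
          simp only [List.length_append]
        have hlen2 : (p ++ y ++ x ++ y ++ x).length =
            p.length + y.length + x.length + y.length + x.length := by
          simp only [List.length_append]
        have e : p ++ y ++ x ++ y ++ x = p ++ (y ++ x) ++ (y ++ x) := by
          simp only [List.append_assoc]
        refine ⟨p.length, (y ++ x).length, Nat.zero_le _, ?_, ?_, ?_, ?_⟩
        · rw [hlen2, List.length_append]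
          omega
        · rw [List.length_append]
          omega
        · rw [List.length_append]
          omega
        · intro t ht ht'
          rw [e]
          exact wf_square p (y ++ x) ht ht'
    | pre q x y =>
      rw [List.count_append] at h0
      obtain ⟨v, hv, hc⟩ := ih (by omega)
      have hx0 : x.count 0 = 0 := by omega
      cases x with
      | nil =>
        exact ⟨v, hv, hc⟩
      | cons a x =>
        exfalso
        cases y with
        | nil =>
          simp only [List.nil_append, List.append_nil, List.cons_append, List.cons.injEq] at hv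
          obtain ⟨ha, -⟩ := hv
          subst ha
          simp at hx0
        | cons b y =>
          simp only [List.cons_append, List.cons.injEq] at hv
          obtain ⟨hb, -⟩ := hv
          subst hb
          have h2 : (0 :: y ++ (a :: x) ++ 0 :: y ++ q : List (Fin 10)).count 0 ≥ 2 := by
            simp only [List.count_append, List.count_cons_self]
            omega
          omega

theorem slice {u : List (Fin 10)} (h : Reach W0 u) (c0 : u.count 0 = 1) (c1 : u.count 1 = 17)
    (c2 : u.count 2 = 2) (c3 : u.count 3 = 4) (c4 : u.count 4 = 3) (c5 : u.count 5 = 7)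
    (c6 : u.count 6 = 5) (c8 : u.count 8 = 20) (k : ℕ) (hk : 1 ≤ k)
    (c7 : u.count 7 = 5 * (2 * k + 3)) : ∃ j, 1 ≤ j ∧ u.count 9 = 5 * ((2 * k + 2) * j) := by
  obtain ⟨v, hv, hc⟩ := static h c0
  have hlen : 11 ≤ u.length := by
    rw [hv, List.length_append]
    simp
  have hw : ∀ i, i < 11 → wf u i = wf W0 i := by
    intro i hi
    rw [hv]
    exact wf_append_left W0 v (by simpa using hi)
  rw [count_eq_cnt] at c0 c1 c2 c3 c4 c5 c6 c7 c8
  have := outer (wf u) u.length (hw 0 (by omega)) (hw 1 (by omega)) (hw 2 (by omega))
    (hw 3 (by omega)) (hw 4 (by omega)) (hw 5 (by omega)) (hw 6 (by omega)) (hw 7 (by omega))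
    (hw 8 (by omega)) (hw 9 (by omega)) (hw 10 (by omega)) hlen
    (fun i _ => by unfold wf; omega) hc c0 c1 c2 c3 c4 c5 c6 c8 k hk c7
  obtain ⟨j, hj, hj'⟩ := this
  refine ⟨j, hj, ?_⟩
  rw [count_eq_cnt]
  exact hj'

end Pool.Agent.PSQ
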